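import Mathlib
import Pool.Agent.Run7.h707.TG.TtFin

/-!
# Tate's form of the conjecture of Birch and Swinnerton-Dyer over the fields `F(t_1, …, t_m)`: abelian
varieties of any dimension and any rank, an exact positive proportion of the extensions `F` of a fixed field

`K = ℚ(√-3)`.  Let `A = E_{c_1} × … × E_{c_g}` (`E_c : y² + c y = x³`, `g ≥ 1`) and `F₀ = K(∛b_1, …, ∛b_s)` (`s ≥ 0`)
with fixed cube-free elements `c_t`, `b_i` of `𝓞 K` that are congruent to third roots of unity modulo `3`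
(every element prime to `3` is such an element times a cube), the `b_i` independent modulo cubes; every
`c_t b^μ` that is a unit times a cube is a cube.  Let `a = (a_1, …, a_r)` run through ALL the `r`-tuples of
elements of the same type, ordered by the maximum of the norms, and let `F = F₀(∛a_1, …, ∛a_r)`.  A tuple is
in the family if for all `t`, `μ` and all `ν ≠ 0` the element `c_t b^μ a^ν` is not exceptional (a unit
times a cube, or `1` modulo `3` with a norm that is `1` modulo `9`) and `b^μ a^ν` is not a unit times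
a cube.

The theorem is about the conjecture of Tate for `X = A` over the finitely generated fields `F₀(t_1, …, t_m)` and
`F(t_1, …, t_m)`, for all `m ≥ 0`.  (`Pic⁰(A)` is the dual of `A`, which is isomorphic to `A`.)  For a number
field `M ⊇ K` the model is `A` over `Y = Spec 𝓞_M[t_1, …, t_m][1/n]`, `n = 3 c_1 ⋯ c_g`, so that `dim Y = m + 1`.

* The family has among ALL the tuples an exact density `κ`, positive as soon as it is not empty.
* The tuples of the family such that all the `E_{c_t b^μ a^ν}(K)`, `ν ≠ 0`, are finite and all the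
  `Ш(E_{c_t b^μ a^ν} / K)[3^∞]` trivial have, among ALL the tuples, exactly the density `κ c₉^N`,
  `c₉ = ∏_{i ≥ 0} (1 - 3^{-(2 i + 1)}) > 0.639`, where `N` is the number of the classes of the triples
  `(t, μ, ν)`, two triples being related if the product of the first twist with the second one or with its
  square is a cube for all `a`.
* For all the tuples of the family and all `m`, the Euler products `Φ₁` of `A` over `F₀(t_1, …, t_m)` and
  `F(t_1, …, t_m)`, taken over ALL the closed points of the models, converge for `Re s > dim Y + 1/2` and have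
  ENTIRE continuations.
* For the tuples with the property above and all `m`: both functions have the SAME order of vanishing at
  `s = dim Y`, and the groups `A(F₀(t_1, …, t_m))` and `A(F(t_1, …, t_m))` have the same rank.  There is no
  condition on the rank of `A(F₀)`.  So the conjecture of Tate for `A` over `F(t_1, …, t_m)` holds if and
  only if it holds over `F₀(t_1, …, t_m)`.
* If moreover the `E_{c_t b^μ}` are not exceptional or cubes and have the same property, then the conjecture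
  of Tate holds for `A` over `F₀(t_1, …, t_m)` and over `F(t_1, …, t_m)` for all `m`: the order at `dim Y` and the
  rank are `0`.

Proof: the law is the one of `TF/FixX.lean`, the comparison of `F` with `F₀` is in `TG/FinA.lean` (see my file
`MP_1d384c_nt/ProductsOfAnyRank`).  New here is the passage to `M(t_1, …, t_m)`.  The Euler product over the
closed points of the affine space becomes a sum over the homomorphisms to finite fields (`W385/CP`, the
starting library); the Hasse-Davenport relation (`Y145/DW`) gives the traces of Frobenius over the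
extensions of a residue field, so that `Φ₁(s)` is `L(A / M, s - m)` without the factors at the places
dividing `n` (`TG/TtHD`, `TtEul`, `TtLoc`).  The solutions of `y² + c y = x³` in `M(t_1, …, t_m)` are constant, by
restriction to lines and the theorem of Mason and Stothers (`TG/TtPoly`, `TtPts`).  The criterion for
the nonvanishing of `L(E_δ / K, 1)`, the descent and the large sieve are the joint work of the seats
named in the headers of the imported files.
-/

set_option autoImplicit false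
set_option linter.unusedSectionVars false

namespace Pool.Agent.Results.MP_9faec4_nt.FunctionFieldsAnyRank

open NumberField WeierstrassCurve
open Pool.Agent.TH841.NF.D (Sha)
open scoped Classical

/-- The curve `E_δ : y² + δ y = x³`. -/
def curve {F : Type} [Field F] (δ : F) : WeierstrassCurve F := ⟨0, 0, δ, 0, 0⟩

variable {K : Type} [Field K] [NumberField K]

/-- `b^μ = ∏ b i ^ μ i`, the exponents in `{0, 1, 2}`. -/
noncomputable def power {s : ℕ} (b : Fin s → 𝓞 K) (μ : Fin s → ZMod 3) : 𝓞 K :=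
  ∏ i, b i ^ (μ i).val

/-- The `b i` are independent modulo cubes: no `b^μ`, `μ ≠ 0`, is a cube. -/
def Independent {s : ℕ} (b : Fin s → 𝓞 K) : Prop :=
  ∀ μ : Fin s → ZMod 3, μ ≠ 0 → ∀ y : 𝓞 K, y ^ 3 ≠ power b μ

/-- `F₀` is generated over `K` by the cube roots `η i` of the `b i`. -/
def IsBase {s : ℕ} (b : Fin s → 𝓞 K) (F₀ : Type) [Field F₀] [Algebra K F₀] (η : Fin s → F₀) : Prop :=
  (∀ i, η i ^ 3 = algebraMap K F₀ (b i)) ∧
    ∀ S : Subfield F₀, (∀ x : K, algebraMap K F₀ x ∈ S) → (∀ i, η i ∈ S) → S = ⊤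

/-- `F` is generated over `F₀` by the cube roots `θ k` of the `a k`. -/
def IsExtension {r : ℕ} (a : Fin r → 𝓞 K) (F₀ F : Type) [Field F₀] [Field F] [Algebra K F]
    [Algebra F₀ F] (θ : Fin r → F) : Prop :=
  (∀ k, θ k ^ 3 = algebraMap K F (a k)) ∧
    ∀ S : Subfield F, (∀ x : F₀, algebraMap F₀ F x ∈ S) → (∀ k, θ k ∈ S) → S = ⊤

/-- `a` is cube-free and congruent to a third root of unity modulo `3`. -/
def Admissible (a : 𝓞 K) : Prop :=
  (∀ x : 𝓞 K, x ^ 3 ∣ a → IsUnit x) ∧ ∃ ω : 𝓞 K, ω ^ 3 = 1 ∧ (3 : 𝓞 K) ∣ a - ω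

/-- `δ` is a unit times a cube. -/
def UnitTimesCube (δ : 𝓞 K) : Prop := ∃ u x : 𝓞 K, IsUnit u ∧ δ = u * x ^ 3

/-- `δ` is `1` modulo `3` and its norm is `1` modulo `9`. -/
def IsOne (δ : 𝓞 K) : Prop := (3 : 𝓞 K) ∣ δ - 1 ∧ (9 : ℤ) ∣ Algebra.norm ℤ δ - 1

/-- `δ` is a unit times a cube, or `1` modulo `3` with a norm that is `1` modulo `9`. -/
def Exceptional (δ : 𝓞 K) : Prop :=
  (∃ u x : 𝓞 K, IsUnit u ∧ δ = u * x ^ 3) ∨
    ((3 : 𝓞 K) ∣ δ - 1 ∧ (9 : ℤ) ∣ Algebra.norm ℤ δ - 1)

/-- The fixed objects: the abelian variety `A = ∏ E_{c t}` of dimension `g` and the elements `b`. -/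
structure Data (K : Type) [Field K] (g s : ℕ) where
  c : Fin g → 𝓞 K
  b : Fin s → 𝓞 K

/-- The elements are admissible, the `b i` independent and every `c_t b^μ` that is a unit times a cube is
a cube. -/
def IsData {g s : ℕ} (D : Data K g s) : Prop :=
  (∀ t, Admissible (D.c t)) ∧ (∀ i, Admissible (D.b i)) ∧ Independent D.b ∧
    ∀ (t : Fin g) (μ : Fin s → ZMod 3), ¬ UnitTimesCube (D.c t * power D.b μ) ∨
      ∃ y : 𝓞 K, D.c t * power D.b μ = y ^ 3

/-- The triples `(t, μ, ν)`, `ν ≠ 0`. -/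
abbrev Index (g s r : ℕ) : Type := Fin g × (Fin s → ZMod 3) × {ν : Fin r → ZMod 3 // ν ≠ 0}

/-- Related triples: `ν + e ν' = 0` and `c_t b^μ (c_t' b^μ')^e` is a cube for `e = 1` or `e = 2`. -/
def Related {g s r : ℕ} (D : Data K g s) (p p' : Index g s r) : Prop :=
  ∃ e : ℕ, (e = 1 ∨ e = 2) ∧ (∀ i, p.2.2.1 i + e * p'.2.2.1 i = 0) ∧
    ∃ x : 𝓞 K, (D.c p.1 * power D.b p.2.1) * (D.c p'.1 * power D.b p'.2.1) ^ e = x ^ 3

/-- `R` is a system of representatives for the related triples. -/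
def IsSystem {g s r : ℕ} (D : Data K g s) (R : Finset (Index g s r)) : Prop :=
  (∀ p ∈ R, ∀ p' ∈ R, p ≠ p' → ¬ Related D p p') ∧ ∀ p, ∃ p' ∈ R, Related D p p'

/-- For `ν ≠ 0` no `c_t b^μ a^ν` is exceptional and no `b^μ a^ν` is a unit times a cube. -/
def InFamily {g s r : ℕ} (D : Data K g s) (a : Fin r → 𝓞 K) : Prop :=
  (∀ (t : Fin g) (μ : Fin s → ZMod 3) (ν : Fin r → ZMod 3), ν ≠ 0 →
    ¬ Exceptional (D.c t * power D.b μ * power a ν)) ∧
  ∀ (μ : Fin s → ZMod 3) (ν : Fin r → ZMod 3), ν ≠ 0 → ¬ UnitTimesCube (power D.b μ * power a ν)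

/-- `E_δ(K)` is finite and the `3`-primary part of `Ш(E_δ / K)` is trivial. -/
def FiniteAndTrivial (δ : 𝓞 K) : Prop :=
  Finite (curve (δ : K)).toAffine.Point ∧ ∀ (n : ℕ) (x : Sha (curve (δ : K))), 3 ^ n • x = 0 → x = 0

/-- The new twists: for `ν ≠ 0` all the `E_{c_t b^μ a^ν}(K)` are finite and the
`Ш(E_{c_t b^μ a^ν} / K)[3^∞]` trivial. -/
def NewTrivial {g s r : ℕ} (D : Data K g s) (a : Fin r → 𝓞 K) : Prop :=
  ∀ (t : Fin g) (μ : Fin s → ZMod 3) (ν : Fin r → ZMod 3), ν ≠ 0 →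
    FiniteAndTrivial (D.c t * power D.b μ * power a ν)

/-- Nine representatives of the classes: `ω (1 + 3 m)`, `ω³ = 1`, `m = 0, 1, 2`. -/
def nine (K : Type) [Field K] : Set (𝓞 K) :=
  {x | ∃ (ω : 𝓞 K) (m : ℕ), ω ^ 3 = 1 ∧ m < 3 ∧ x = ω * (1 + 3 * m)}

/-- The density of the family: the proportion of the tuples of representatives such that for `ν ≠ 0` no
`c_t b^μ a^ν` is `1` modulo `3` with a norm that is `1` modulo `9`. -/
noncomputable def kappa {g s : ℕ} (D : Data K g s) (r : ℕ) : ℝ :=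
  ({u : Fin r → 𝓞 K | (∀ i, u i ∈ nine K) ∧ ∀ (t : Fin g) (μ : Fin s → ZMod 3)
    (ν : Fin r → ZMod 3), ν ≠ 0 → ¬ IsOne (D.c t * power D.b μ * power u ν)}.ncard : ℝ) / 9 ^ r

/-- The number of the admissible tuples `a` of norm at most `X` with the property `P`. -/
noncomputable def number {r : ℕ} (X : ℕ) (P : (Fin r → 𝓞 K) → Prop) : ℝ :=
  ({a : Fin r → 𝓞 K | (∀ k, Algebra.norm ℤ (a k) ≤ X ∧ Admissible (a k)) ∧ P a}.ncard : ℝ)

/-- The property `P` has the density `d` among all the admissible tuples. -/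
def HasDensity {r : ℕ} (P : (Fin r → 𝓞 K) → Prop) (d : ℝ) : Prop :=
  Filter.Tendsto (fun X : ℕ => number X P / number X (fun _ : Fin r → 𝓞 K => True)) Filter.atTop
    (nhds d)

/-- The twists over the fixed field: all the `c_t b^μ` are not exceptional or cubes, the `E_{c_t b^μ}(K)` finite
and the `Ш(E_{c_t b^μ} / K)[3^∞]` trivial. -/
def BaseTrivial {g s : ℕ} (D : Data K g s) : Prop :=
  ∀ (t : Fin g) (μ : Fin s → ZMod 3), (¬ Exceptional (D.c t * power D.b μ) ∨
    ∃ y : 𝓞 K, D.c t * power D.b μ = y ^ 3) ∧ FiniteAndTrivial (D.c t * power D.b μ)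

/-! ### Tate's conjecture for `A = ∏ E_{c_t}` over `M(t_1, …, t_m)` -/

section Tate

/-- The number of elements `q_y` of the residue field of a closed point. -/
noncomputable def q {B : Type} [CommRing B] (y : MaximalSpectrum B) : ℕ := Nat.card (B ⧸ y.asIdeal)

/-- The trace of Frobenius `a_y = q_y + 1 - #E_c(k(y))` of the fibre of `E_c` at the closed point `y` (the curve
`z² + c z = x³` has one point at infinity). -/
noncomputable def trace {B : Type} [CommRing B] (c : B) (y : MaximalSpectrum B) : ℤ :=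
  (q y : ℤ) + 1 - ((Nat.card {P : (B ⧸ y.asIdeal) × (B ⧸ y.asIdeal) //
    P.2 ^ 2 + Ideal.Quotient.mk y.asIdeal c * P.2 = P.1 ^ 3} : ℤ) + 1)

/-- The factor `P_{y,1}(q_y^{-s})⁻¹` of `E_c` at `y`, `P_{y,1}(T) = 1 - a_y T + q_y T²`. -/
noncomputable def factor {B : Type} [CommRing B] (c : B) (s : ℂ) (y : MaximalSpectrum B) : ℂ :=
  (1 - (trace c y : ℂ) * ((q y : ℕ) : ℂ) ^ (-s) + ((q y : ℕ) : ℂ) ^ (1 - 2 * s))⁻¹

/-- An element of `𝓞 K` as a constant of `𝓞_M[t_1, …, t_m]`. -/
noncomputable def const (m : ℕ) (M : Type) [Field M] [NumberField M] [Algebra K M] (x : 𝓞 K) :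
    MvPolynomial (Fin m) (𝓞 M) := MvPolynomial.C (algebraMap (𝓞 K) (𝓞 M) x)

/-- The closed points of the model `Y = Spec 𝓞_M[t_1, …, t_m][1/n]`, `n = 3 c_1 ⋯ c_g`; its dimension is
`m + 1`. -/
def Y {g : ℕ} (c : Fin g → 𝓞 K) (m : ℕ) (M : Type) [Field M] [NumberField M] [Algebra K M] : Type :=
  {y : MaximalSpectrum (MvPolynomial (Fin m) (𝓞 M)) // const m M (3 * ∏ t, c t) ∉ y.asIdeal}

/-- `Φ` is the function `Φ₁` of `A` over `M(t_1, …, t_m)`: it is entire and equal to the Euler product over the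
closed points of `Y` for `Re s > dim Y + 1/2`. -/
def IsPhi {g : ℕ} (c : Fin g → 𝓞 K) (m : ℕ) (M : Type) [Field M] [NumberField M] [Algebra K M]
    (Φ : ℂ → ℂ) : Prop :=
  Differentiable ℂ Φ ∧ ∀ s : ℂ, (m : ℝ) + 1 + 1 / 2 < s.re →
    HasProd (fun y : Y c m M => ∏ t, factor (const m M (c t)) s y.1) (Φ s)

/-- The group `A(L)`, `L = M(t_1, …, t_m)`. -/
abbrev Points {g : ℕ} (c : Fin g → 𝓞 K) (m : ℕ) (M : Type) [Field M] [NumberField M] [Algebra K M]
    (L : Type) [Field L] [Algebra (MvPolynomial (Fin m) M) L] : Type :=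
  ∀ t, (curve (algebraMap (MvPolynomial (Fin m) M) L
    (MvPolynomial.C (algebraMap K M (c t : 𝓞 K))))).toAffine.Point

/-- Tate's conjecture for `A` over `L = M(t_1, …, t_m)`, `Φ` being the function `Φ₁`: its order at `dim Y = m + 1`
is the rank of `A(L)`. -/
def TateFormula {g : ℕ} (c : Fin g → 𝓞 K) (m : ℕ) (M : Type) [Field M] [NumberField M]
    [Algebra K M] (L : Type) [Field L] [Algebra (MvPolynomial (Fin m) M) L] (Φ : ℂ → ℂ) : Prop :=
  analyticOrderAt Φ (m + 1) = (Module.finrank ℤ (Points c m M L) : ℕ∞)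

/-- From `F₀` to `F`, for the functions `Φ₀` and `Φ` of `A` over all fields `L₀ = F₀(t_1, …, t_m)` and
`L = F(t_1, …, t_m)`: the orders at `m + 1` are the same, `A(L)` and `A(L₀)` have the same rank (as cardinals), and
Tate's conjecture for `A / L` holds if and only if it holds for `A / L₀`. -/
def Stable {g : ℕ} (c : Fin g → 𝓞 K) (m : ℕ) (F₀ F : Type) [Field F₀] [NumberField F₀]
    [Algebra K F₀] [Field F] [NumberField F] [Algebra K F] (Φ₀ Φ : ℂ → ℂ) : Prop :=
  analyticOrderAt Φ (m + 1) = analyticOrderAt Φ₀ (m + 1) ∧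
    ∀ (L₀ : Type) [Field L₀] [Algebra (MvPolynomial (Fin m) F₀) L₀]
      [IsFractionRing (MvPolynomial (Fin m) F₀) L₀] (L : Type) [Field L]
      [Algebra (MvPolynomial (Fin m) F) L] [IsFractionRing (MvPolynomial (Fin m) F) L],
      Module.rank ℤ (Points c m F L) = Module.rank ℤ (Points c m F₀ L₀) ∧
      (TateFormula c m F L Φ ↔ TateFormula c m F₀ L₀ Φ₀)

/-- Tate's conjecture holds for `A` over the fields `L = M(t_1, …, t_m)`, both sides being zero. -/
def TateZero {g : ℕ} (c : Fin g → 𝓞 K) (m : ℕ) (M : Type) [Field M] [NumberField M]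
    [Algebra K M] (Φ : ℂ → ℂ) : Prop :=
  Φ (m + 1) ≠ 0 ∧ ∀ (L : Type) [Field L] [Algebra (MvPolynomial (Fin m) M) L]
    [IsFractionRing (MvPolynomial (Fin m) M) L],
    Module.rank ℤ (Points c m M L) = 0 ∧ TateFormula c m M L Φ

end Tate

/-! ### The proof -/

theorem trace_eq {B : Type} [CommRing B] (c : B) (y : MaximalSpectrum B) :
    trace c y = Run7.h707.TG.aF (Pool.Agent.W385.CP.Rs y) (Ideal.Quotient.mk y.asIdeal c) := by
  unfold trace Run7.h707.TG.aF
  have : ∀ a b : ℤ, a + 1 - (b + 1) = a - b := fun a b => by ring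
  rw [this]
  rfl

theorem isPhi_of {g : ℕ} {c : Fin g → 𝓞 K} {m : ℕ} {M : Type} [Field M] [NumberField M]
    [Algebra K M] {Φ : ℂ → ℂ} (h : Run7.h707.TG.IsPhT c (Fin m) M Φ) : IsPhi c m M Φ := by
  refine ⟨h.1, fun s hs => ?_⟩
  have h1 := h.2 s (by
    rw [Fintype.card_fin]
    linarith)
  refine h1.congr_fun fun y => ?_
  refine Finset.prod_congr rfl fun t _ => ?_
  unfold factor Run7.h707.TG.fcT
  rw [trace_eq]
  rfl

theorem rank_of {g : ℕ} {c : Fin g → 𝓞 K} (hc : ∀ t, Admissible (c t)) (m : ℕ) {M : Type} [Field M]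
    [NumberField M] [Algebra K M] (L : Type) [Field L] [Algebra (MvPolynomial (Fin m) M) L]
    [IsFractionRing (MvPolynomial (Fin m) M) L] : Module.rank ℤ (Points c m M L) =
      Module.rank ℤ (∀ t, (curve (algebraMap K M (c t : 𝓞 K))).toAffine.Point) :=
  Run7.h707.TG.rank_T (fun t => Run7.h707.TE.ne_of_famO (hc t)) (Fin m) L

/-- **Main theorem.** -/
theorem result (K : Type) [Field K] [NumberField K] [IsCyclotomicExtension {3} ℚ K] :
    (0.639 : ℝ) < ∏' i : ℕ, (1 - (1 / 3 : ℝ) ^ (2 * i + 1)) ∧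
    ∀ (g s : ℕ) (D : Data K g s), 0 < g → IsData D → ∀ r : ℕ,
      ((∃ a : Fin r → 𝓞 K, (∀ i, Admissible (a i)) ∧ InFamily D a) → 0 < kappa D r) ∧
      (∃ C : ℝ, 0 < C ∧ ∃ X₀ : ℕ, ∀ X : ℕ, X₀ ≤ X →
        C * (X : ℝ) ^ r ≤ number X (fun _ : Fin r → 𝓞 K => True)) ∧
      HasDensity (fun a : Fin r → 𝓞 K => InFamily D a) (kappa D r) ∧
      (∃ R : Finset (Index g s r), IsSystem D R) ∧
      (∀ R : Finset (Index g s r), IsSystem D R →
        HasDensity (fun a : Fin r → 𝓞 K => InFamily D a ∧ NewTrivial D a)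
          (kappa D r * (∏' i : ℕ, (1 - (1 / 3 : ℝ) ^ (2 * i + 1))) ^ R.card)) ∧
      ∀ a : Fin r → 𝓞 K, (∀ k, Admissible (a k)) → InFamily D a →
        (∃ (F₀ : Type) (_ : Field F₀) (_ : NumberField F₀) (_ : Algebra K F₀) (η : Fin s → F₀),
          IsBase D.b F₀ η) ∧
        ∀ (F₀ : Type) [Field F₀] [NumberField F₀] [Algebra K F₀] (η : Fin s → F₀),
          IsBase D.b F₀ η → Module.finrank K F₀ = 3 ^ s ∧
          (∃ (F : Type) (_ : Field F) (_ : NumberField F) (_ : Algebra K F) (_ : Algebra F₀ F)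
            (_ : IsScalarTower K F₀ F) (θ : Fin r → F), IsExtension a F₀ F θ) ∧
          ∀ (F : Type) [Field F] [NumberField F] [Algebra K F] [Algebra F₀ F]
            [IsScalarTower K F₀ F] (θ : Fin r → F), IsExtension a F₀ F θ →
            Module.finrank F₀ F = 3 ^ r ∧
            ∀ m : ℕ, ∃ Φ₀ Φ : ℂ → ℂ, IsPhi D.c m F₀ Φ₀ ∧ IsPhi D.c m F Φ ∧
              (NewTrivial D a → Stable D.c m F₀ F Φ₀ Φ ∧
                (BaseTrivial D → TateZero D.c m F₀ Φ₀ ∧ TateZero D.c m F Φ)) := by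
  have e : ∀ (r X : ℕ), number X (fun _ : Fin r → 𝓞 K => True) =
      ({a : Fin r → 𝓞 K | ∀ k, Algebra.norm ℤ (a k) ≤ X ∧ Admissible (a k)}.ncard : ℝ) := by
    intro r X
    unfold number
    simp only [and_true]
  refine ⟨Pool.Agent.XLK.t_C9.2.2.2.1, fun g s D hg hD r => ?_⟩
  obtain ⟨hc, hb, hind, hE⟩ := hD
  obtain ⟨c, b⟩ := D
  have hex : ∃ R : Finset (Index g s r), IsSystem ⟨c, b⟩ R := Run7.h707.TF.ex_sys
    (Run7.h707.TF.Rx (r := r) c b) Run7.h707.TF.rx_refl
    (Run7.h707.TF.rx_symm (fun t => Run7.h707.TE.ne_of_famO (hc t))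
      fun i => Run7.h707.TE.ne_of_famO (hb i))
  obtain ⟨R₀, hR₀⟩ := hex
  obtain ⟨h0, h1, h2, h3, h4⟩ := Run7.h707.TG.finTt K hg r hc hb hind hE R₀ hR₀.1 hR₀.2
  refine ⟨?_, ?_, ?_, ⟨R₀, hR₀⟩, fun R hR => ?_, fun a ha hF => ⟨?_, fun F₀ _ _ _ η hη => ?_⟩⟩
  · rintro ⟨a, ha, haF⟩
    exact h0 ⟨a, ha, haF.1⟩
  · simp only [e]
    exact h1
  · unfold HasDensity
    simp only [e]
    exact h2
  · obtain ⟨-, -, -, h3', -⟩ := Run7.h707.TG.finTt K hg r hc hb hind hE R hR.1 hR.2
    unfold HasDensity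
    simp only [e]
    exact h3'
  · obtain ⟨F, i1, i2, i3, θ, hθ, hgen⟩ := Run7.h707.TE.ex_F fun i => (b i : K)
    exact ⟨F, i1, i2, i3, θ, hθ, hgen⟩
  · have hexF : ∃ (F : Type) (_ : Field F) (_ : NumberField F) (_ : Algebra K F) (_ : Algebra F₀ F)
        (_ : IsScalarTower K F₀ F) (θ : Fin r → F), IsExtension a F₀ F θ := by
      obtain ⟨F, i1, i2, i3, θ, hθ, hgen⟩ := Run7.h707.TE.ex_F fun k => algebraMap K F₀ (a k : K)
      let i4 : Algebra K F := ((algebraMap F₀ F).comp (algebraMap K F₀)).toAlgebra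
      have i5 : IsScalarTower K F₀ F := IsScalarTower.of_algebraMap_eq fun x => rfl
      exact ⟨F, i1, i2, i4, i3, i5, θ, hθ, hgen⟩
    have hall := h4 a ha hF.1 hF.2 F₀ η hη
    have hfr : Module.finrank K F₀ = 3 ^ s := by
      obtain ⟨F, i1, i2, i3, i4, i5, θ, hθ⟩ := hexF
      exact (hall F θ hθ).1
    refine ⟨hfr, hexF, fun F _ _ _ _ _ θ hθ => ?_⟩
    obtain ⟨-, hd, hσ⟩ := hall F θ hθ
    refine ⟨hd, fun m => ?_⟩
    obtain ⟨Φ₀, Φ, p1, p2, p3, p4⟩ := hσ (Fin m)
    rw [Fintype.card_fin] at p3 p4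
    refine ⟨Φ₀, Φ, isPhi_of p1, isPhi_of p2, fun hN => ?_⟩
    obtain ⟨o1, o2⟩ := p3 hN
    have hrk : ∀ (L₀ : Type) [Field L₀] [Algebra (MvPolynomial (Fin m) F₀) L₀]
        [IsFractionRing (MvPolynomial (Fin m) F₀) L₀] (L : Type) [Field L]
        [Algebra (MvPolynomial (Fin m) F) L] [IsFractionRing (MvPolynomial (Fin m) F) L],
        Module.rank ℤ (Points c m F L) = Module.rank ℤ (Points c m F₀ L₀) := by
      intro L₀ _ _ _ L _ _ _
      rw [rank_of hc m L, rank_of hc m L₀]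
      exact o2
    refine ⟨⟨o1, fun L₀ _ _ _ L _ _ _ => ⟨hrk L₀ L, ?_⟩⟩, fun hB => ?_⟩
    · have hr : Module.finrank ℤ (Points c m F L) = Module.finrank ℤ (Points c m F₀ L₀) := by
        unfold Module.finrank
        exact congrArg Cardinal.toNat (hrk L₀ L)
      unfold TateFormula
      rw [o1]
      show _ = ((Module.finrank ℤ (Points c m F L) : ℕ) : ℕ∞) ↔
        _ = ((Module.finrank ℤ (Points c m F₀ L₀) : ℕ) : ℕ∞)
      rw [hr]
    · obtain ⟨q1, q2⟩ := p4 hB
      have z0 : analyticOrderAt Φ₀ (m + 1) = 0 := analyticOrderAt_eq_zero.2 (Or.inr q1)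
      have z1 : analyticOrderAt Φ (m + 1) = 0 := by rw [o1, z0]
      have n1 : Φ (m + 1) ≠ 0 :=
        (p2.1.analyticAt _).analyticOrderAt_eq_zero.1 z1
      refine ⟨⟨q1, fun L _ _ _ => ?_⟩, ⟨n1, fun L _ _ _ => ?_⟩⟩
      · have hr : Module.rank ℤ (Points c m F₀ L) = 0 := by
          rw [rank_of hc m L]
          exact q2
        refine ⟨hr, ?_⟩
        unfold TateFormula
        rw [z0]
        have : Module.finrank ℤ (Points c m F₀ L) = 0 := by
          unfold Module.finrank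
          rw [hr]
          exact map_zero _
        show (0 : ℕ∞) = ((Module.finrank ℤ (Points c m F₀ L) : ℕ) : ℕ∞)
        rw [this]
        rfl
      · have hr : Module.rank ℤ (Points c m F L) = 0 := by
          rw [rank_of hc m L]
          exact o2.trans q2
        refine ⟨hr, ?_⟩
        unfold TateFormula
        rw [z1]
        have : Module.finrank ℤ (Points c m F L) = 0 := by
          unfold Module.finrank
          rw [hr]
          exact map_zero _
        show (0 : ℕ∞) = ((Module.finrank ℤ (Points c m F L) : ℕ) : ℕ∞)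
        rw [this]
        rfl

end Pool.Agent.Results.MP_9faec4_nt.FunctionFieldsAnyRank
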