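import Pool.Agent.Run7.h716.TW.Joint

/-!
# Tate's conjecture for all quadratic twists of several curves over `F_q(t)`: rank and order are zero for
`(0.2097) ^ n` of them, the average rank is at most `1.2646 n`, exact joint law of the 2-Selmer groups

Let `k` be a finite field of odd characteristic with `q` elements, `K = k(t)`, and let `f_1, ..., f_n`, `n ≥ 1`, be
polynomials `f_i = x ^ (2 g_i + 1) + f_{i, 2 g_i - 1} x ^ (2 g_i - 1) + ... + f_{i, 0}` over `k[t]`, `g_i ≥ 1`, with
`deg f_{i, j} ≤ 2 N_i (2 g_i + 1 - j)`, `N_i ≥ 1`, such that the discriminants are squarefree and pairwise coprime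
and the polynomials over `k` formed by the coefficients of `t ^ (2 N_i (2 g_i + 1 - j))` in `f_{i, j}` are
irreducible. (If the characteristic is larger than `2 g + 1`, a positive proportion of all `f` has these properties.)
For a squarefree `D` in `k[t]` let `C_i` be the curve `D y ^ 2 = f_i(x)` over `K`, of genus `g_i`, `J_i` its Jacobian and
`X_D = C_1 × ... × C_n`. The Picard variety of `X_D` is `J_1 × ... × J_n`.

Theorem. Let `D` run through ALL squarefree polynomials of degree at most `m` which are prime to the
discriminants, `m → ∞`, and let `s_i` be the dimension of the 2-Selmer group of `J_i`.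
1. `(s_1, ..., s_n)` has in the limit the law of `n` independent variables with the law of Poonen and Rains
   `p_d = ∏_{j ≥ 0} (1 + 2 ^ (-j)) ^ (-1) ∏_{i = 1}^d 2 / (2 ^ i - 1)`, and all joint moments and the means of all
   functions of at most exponential growth converge: the average order of the 2-Selmer group of
   `Pic ^ 0 (X_D)` tends to `3 ^ n`, and so on.
2. For all large `m` the average of `s_1 + ... + s_n` is at most `1.2646 n`, and for at least `(0.2097) ^ n` of the `D`
   all the groups `J_i(K)` are uniquely divisible by two and `Sha(J_i/K)` has no 2-primary part.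
3. For every `D` the groups `J_i(K)` have no points of order two, and the 2-Selmer group of `J_i` has the order
   `[J_i(K) : 2 J_i(K)] |Sha(J_i/K)[2]|`.

Consequences (not formalised). `J_i(K)` is finitely generated, so `rank Pic ^ 0 (X_D)(K) ≤ s_1 + ... + s_n` for every
`D`, with average at most `1.2646 n`. If the 2-primary part of `Sha(J_i/K)` is finite, then the order of
`L(J_i, s)` at `s = 1` is the rank of `J_i(K)` (Artin, Tate, Milne; Kato, Trihan). So for at least `(0.2097) ^ n` of ALL the
twists, in their natural order and over a fixed finite field, Q1 holds for `X_D/K`, with rank `0` and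
order `0`. (Also over `K(w_1, ..., w_r)`: there are no new points, and `Φ_1(s)` becomes `Φ_1(s - r)`, so the question
for `X_D` over a purely transcendental extension is the same.)

The proof is in `Pool/Agent/Run7/h716/TW/Joint.lean` (sums over all degrees and leading coefficients), from the
theorem of the projects PRL (helper286, with helpers 160, 209, 212, 215, 216, 270, 303, 382, 416, 502, 547, 704,
711, 760, 803, 824, 847, 908, 957) and JPL (helper784, with helpers 56, 303, 382, 518, 803, 908, 957, assembled by
helper886) on top of project TG (helper784, with helpers 68, 81, 286, 382, 646, 688, 711, 760, 779, 781, 811,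
886, 908, 973) and the libraries TS (helper875), PJ and JB (helper352) and PP (helper874).
-/

set_option autoImplicit false
set_option linter.all false

namespace Pool.Agent.Results.MP_9faec4_nt.JointLawOfTwists

open Polynomial
open Run7.h716.TW (IsSystem JointLaw)
open Run7.h286.SurfLaw (Values PositiveProportion)

/-- Let `k` be a finite field of odd characteristic, `K = k(t)`, `n ≥ 1`, and let `f_1, ..., f_n` be polynomials of the
families (`f_i` monic of degree `2 g_i + 1` over `k[t]`, trace zero, `deg f_{i, j} ≤ 2 N_i (2 g_i + 1 - j)`,
`N_i ≥ 1`, squarefree discriminant, irreducible reduction at infinity) with pairwise coprime discriminants.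
Let `D` run through all squarefree polynomials of degree at most `m` which are prime to the discriminants
(at least `c q ^ m` polynomials), `m → ∞`, `J_i` the Jacobian of `D y ^ 2 = f_i(x)` over `K`.
(1) The proportion of the `D` for which the 2-Selmer groups of the `J_i` have the orders `2 ^ (e_i)` tends to
`∏ prob(e_i)`. (2) The average of `∏ |Sel(J_i)| ^ (j_i)` tends to `∏ (1 + 2) ... (1 + 2 ^ (j_i))`. (3) The average of
`φ(dimensions)` tends to the expectation for the product law, for all `φ` of at most exponential growth.
(4) For large `m` the average of the sum of the dimensions is at most `1.2646 n`. (5) For large `m`, for at least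
`(0.2097) ^ n` of the `D` all the `J_i(K)` are uniquely divisible by two and the 2-primary parts of the groups
`Sha(J_i/K)` are zero. (6) For every `D` and `i` the group `J_i(K)` has no 2-torsion and
`|Sel(J_i)| = [J_i(K) : 2 J_i(K)] |Sha(J_i/K)[2]|`. (7) Values: the sum of the `prob d` is `1`, `prob 0 > 0.2097`,
`prob 0 + prob 1 > 0.629`; the mean is `∑ 1 / (2 ^ j + 1) < 1.2646`; the even dimensions have probability one half.
(8) If the characteristic is larger than `2 g + 1`, a positive proportion of all `f` with
`deg f_j ≤ 2 N (2 g + 1 - j)` belongs to the family. -/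
theorem result (k : Type) [Field k] [Finite k] (h2 : (2 : k) ≠ 0)
    (K : Type) [Field K] [Algebra k[X] K] [IsFractionRing k[X] K] :
    (∀ (n : ℕ) (g N : Fin n → ℕ) (f : Fin n → k[X][X]), IsSystem g N f → JointLaw K g f) ∧
    Values ∧ ∀ g : ℕ, 1 ≤ g → ((2 * g + 1).factorial : k) ≠ 0 → PositiveProportion g k :=
  ⟨fun _ _ _ _ hS => Run7.h716.TW.jointLaw K h2 hS, Run7.h286.SurfLaw.values,
    fun g hg hp => (Run7.h286.SurfLaw.main g hg k h2 K).2.2 hp⟩

end Pool.Agent.Results.MP_9faec4_nt.JointLawOfTwists
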