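import Pool.Agent.Run7.h9.SF.Fin2

/-!
# Tate's Euler products over the fields of rational functions `K(w_1, ..., w_n)`: the limit law, and the number of
the marked points

`K` is any number field and `n ≥ 1`.  The curves are the members over the field `K(w_1, ..., w_n)` of any of the
families of hyperelliptic curves with marked points,

`C_t : y² = F_t(x)`, `F_t = F₀ + (∏ (x - x_i)) (T₀ x + T₁ + ∑ T_j P_j)`,

`F₀` monic of degree `≥ 3` and at least two more than the number of the marked points, the curves pass through the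
points `(x_i, y_i)`, `y_i ≠ 0`, and the parameters are polynomials in `w` with given exponents,
`T_j = ∑_(α ∈ S) t_(j,α) w^α`, where `S` is any finite set of exponents that contains the exponents of
`1, w_1, ..., w_n`.  For example, all elliptic curves
`y² = x³ + a(w) x + b(w)` over `K(w)` with `a`, `b` of degree at most `D`, with no marked point; or
`y² = x³ + 1 + x (a(w) x + b(w))` with the marked point `(0, 1)`.  `ρ` is the number of the marked points
of the Jacobian (the points `(x_i, y_i)`, and one more, the difference of the points at infinity, if the degree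
is even), which all of the members of the family have in common.

The model of `C_t` is the family of the smooth fibres over the open part `𝒴` of the affine space of dimension `n` over
`𝓞 K [1/2]`, so `dim 𝒴 = n + 1`, and Tate's conjecture states that the Euler product

`Φ₁(s) = ∏_(y ∈ 𝒴) det(1 - q_y^(-s) Frob_y | H¹)⁻¹`

has at `s = dim 𝒴 = n + 1` a zero of order the rank of the Jacobian of `C_t` over `K(w)`.  Let `B_Z(t)` be the inverse
of the part of the Euler product over the closed points `y` over the places `v` of `K` with `Nv ≤ Z` at `s = n + 1`;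
for one curve the conjecture suggests to compare it with `(log Z)^rank`.  Let
`M_Z = ∏_(Nv ≤ Z) (1 - 1/Nv)⁻¹` (`log M_Z = log log Z + O(1)`).  We consider the smooth members with coordinates at
most `H_j`, for `Z → ∞`:

1. **all moments, real and complex**, for `H_j ≥ exp(Z^(1+θ))`: the mean value of `B_Z(t)^κ` is `~ Ψ(κ) M_Z^(κ ρ)`,
   uniformly for `|κ| ≤ R`, with an entire function `Ψ`, `Ψ(0) = 1`, which is positive at real points;
2. **the limit law**, for `H_j ≥ Z^C`, where `C` depends on the precision only, so for all `Z = H^(o(1))`: there is a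
   probability measure `μ` on the real line, with characteristic function `Ψ(i u)`, such
   that `log B_Z(t) - ρ log M_Z` has the limit law `μ`; so (unlike over number fields, the case `n = 0`, where
   the fluctuations are of order `√(log log Z)`, and the mean is shifted by `½ log log Z`) the
   partial products are `M_Z^ρ` up to a random factor of bounded order;
3. **large deviations**, for `H_j ≥ Z^(C log log Z)`: for every `A > 0` the inequality
   `|log B_Z(t) - ρ log log Z| ≥ y` holds only for a proportion `≤ C exp(-A y)` of the members, for all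
   `0 ≤ y ≤ A log log Z` (`C = C(A)` is independent of `Z`, `H` and `y`);
4. **rounding**, for `H_j ≥ Z^C`: `ρ` is the integer nearest to `log B_Z(t) / log log Z` for all members but a
   proportion `≤ B (log log Z)^(-k)`, for every `k` (`C`, `B` depend on `k`), and by (3) (`y = ½ log log Z`) but a
   proportion `O((log Z)^(-A))` for every `A` if `H_j ≥ Z^(C log log Z)`: Tate's products show the number of the marked
   points.
-/

set_option autoImplicit false
open NumberField IsDedekindDomain Filter Topology MeasureTheory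

namespace Pool.Agent.Results.MP_9faec4_nt.LimitLawRationalFunctionFields

open Run7.h876.HY Run7.h876.EN Run7.h9.BS Run7.h9.SF

/-- **The law of the Euler products of Tate's form of the conjecture of Birch and Swinnerton-Dyer for the members over
`K(w_1, ..., w_n)` of a family of curves with marked points.** -/
theorem result (K : Type) [Field K] [NumberField K] (J : Type) [Fintype J] [DecidableEq J] (𝓕 : Family K J)
    (Y : Type) [Fintype Y] [DecidableEq Y] [Nonempty Y] (S : Finset (Y →₀ ℕ)) (hS : 0 ∈ S)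
    (hS1 : ∀ i, Finsupp.single i 1 ∈ S) :
    (∀ (Z : ℕ) (t : (Fin 2 ⊕ J) × S → 𝓞 K), 0 < tateProduct Z (memberW 𝓕 (param S t))) ∧
    (∃ C : ℝ, ∀ Z : ℕ, 3 ≤ Z → |Real.log (zetaProd K Z) - Real.log (Real.log Z)| ≤ C) ∧
    (∃ (Ψ : ℂ → ℂ), Differentiable ℂ Ψ ∧ Ψ 0 = 1 ∧ (∀ x : ℝ, ∃ r : ℝ, 0 < r ∧ Ψ x = r) ∧
      ∀ (ι : Type) [Fintype ι] [DecidableEq ι] (ω : Module.Basis ι ℤ (𝓞 K)),
      (∀ R : ℝ, 0 ≤ R → ∀ θ : ℝ, 0 < θ → ∀ ε : ℝ, 0 < ε → ∃ Z₀ : ℕ, ∀ Z : ℕ, Z₀ ≤ Z →
        ∀ H : (Fin 2 ⊕ J) × S → ℕ, (∀ j, Real.exp ((Z : ℝ) ^ (1 + θ)) ≤ H j) → ∀ κ : ℂ, ‖κ‖ ≤ R →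
        ‖mean ω H (smoothW 𝓕 S) (fun t => (tateProduct Z (memberW 𝓕 (param S t)) : ℂ) ^ κ) *
          (zetaProd K Z : ℂ) ^ (-(κ * 𝓕.rk)) - Ψ κ‖ ≤ ε) ∧
      ∃ μ : ProbabilityMeasure ℝ, (∀ u : ℝ, charFun (μ : Measure ℝ) u = Ψ (Complex.I * u)) ∧
        ∀ a : ℝ, (μ : Measure ℝ) {a} = 0 → ∀ ε : ℝ, 0 < ε → ∃ C Z₀ : ℕ, ∀ Z : ℕ, Z₀ ≤ Z →
          ∀ H : (Fin 2 ⊕ J) × S → ℕ, (∀ j, Z ^ C ≤ H j) →
          |prop ω H (smoothW 𝓕 S) (fun t => Real.log (tateProduct Z (memberW 𝓕 (param S t))) ≤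
            𝓕.rk * Real.log (zetaProd K Z) + a) - (μ : Measure ℝ).real (Set.Iic a)| ≤ ε) ∧
    ∀ (ι : Type) [Fintype ι] [DecidableEq ι] (ω : Module.Basis ι ℤ (𝓞 K)),
      (∀ A : ℝ, 0 < A → ∃ C : ℝ, 0 < C ∧ ∃ Z₀ : ℕ, ∀ Z : ℕ, Z₀ ≤ Z →
        ∀ H : (Fin 2 ⊕ J) × S → ℕ, (∀ j, (Z : ℝ) ^ (C * Real.log (Real.log Z)) ≤ H j) →
        ∀ y : ℝ, 0 ≤ y → y ≤ A * Real.log (Real.log Z) →
        prop ω H (smoothW 𝓕 S) (fun t => y ≤
          |Real.log (tateProduct Z (memberW 𝓕 (param S t))) - 𝓕.rk * Real.log (Real.log Z)|) ≤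
            C * Real.exp (-(A * y))) ∧
      ∀ k : ℕ, ∃ C : ℕ, ∃ B : ℝ, 0 < B ∧ ∃ Z₀ : ℕ, ∀ Z : ℕ, Z₀ ≤ Z →
        ∀ H : (Fin 2 ⊕ J) × S → ℕ, (∀ j, Z ^ C ≤ H j) →
        prop ω H (smoothW 𝓕 S) (fun t =>
          round (Real.log (tateProduct Z (memberW 𝓕 (param S t))) / Real.log (Real.log Z)) ≠ (𝓕.rk : ℤ)) ≤
            B / Real.log (Real.log Z) ^ k :=
  ⟨fun Z t => tate_pos 𝓕 hS hS1 Z t, by
      obtain ⟨C, _, h⟩ := Run7.h9.TW.VZ_mert K
      refine ⟨C, fun Z hZ => ?_⟩
      rw [log_zetaProd]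
      exact h Z hZ,
    ⟨fun z => (sfData 𝓕 hS hS1).Psi (fun _ => z), by
        have h := (sfData 𝓕 hS hS1).Psi_line (fun _ => 1)
        simpa using h, (sfData 𝓕 hS hS1).Psi_zero,
      fun x => (sfData 𝓕 hS hS1).Psi_real (fun _ => x),
      fun _ _ _ ω => ⟨fun _ hR _ hθ _ hε => sf_mod 𝓕 ω hS hS1 hR hθ hε, sf_law2 𝓕 ω hS hS1⟩⟩,
    fun _ _ _ ω => ⟨fun _ hA => sf_tail2 𝓕 ω hS hS1 hA, sf_round2 𝓕 ω hS hS1⟩⟩

end Pool.Agent.Results.MP_9faec4_nt.LimitLawRationalFunctionFields
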