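import Pool.Agent.Run7.h954.CP.Fnl

/-!
# Tate's form of the Birch–Swinnerton-Dyer conjecture for the curves with a rational total space

Let `M` be a finitely generated field of characteristic zero and of transcendence degree `d` over `ℚ`, and
let `K = M(w_0, ..., w_k)` be the field of rational functions in `k + 1` variables.  Let `n` and `m` be
coprime positive integers, and let `C` be a smooth affine curve over `K` with the equation

  `H(x, y) = y^n - x^m + ∑ h_ij x^i y^j = 0`, where the sum is over `n i + m j < n m`

(for instance every elliptic curve, every hyperelliptic curve with a rational Weierstrass point, every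
smooth superelliptic curve `y^n = f(x)`, with `f` monic of degree prime to `n`).  Its smooth projective
model `X` has exactly one more point, which is rational over `K`.  Hence `Pic⁰(X)` is the class group of
the Dedekind domain `K[x, y] / (H)`, and for a smooth reduction of the equation over a field with `q`
elements the trace of the Frobenius on `H¹` is `q` minus the number of the affine points.

We prove Tate's conjecture (Q1) for `X` over `K` whenever the total space of the family is rational over
`M`, that is, whenever the function field `E = K(C)` is purely transcendental over `M`.  The dimension of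
the models `Spec R` of `K` is `d + k + 2`.
-/

set_option autoImplicit false

namespace Pool.Agent.Results.MP_9faec4_nt.RationalTotalSpace

open Polynomial

/-- The polynomial is `y^n - x^m` plus monomials `x^i y^j` with `n i + m j < n m`. Here `x` is the inner
and `y` is the outer variable. -/
def IsCab {R : Type} [CommRing R] (n m : ℕ) (H : R[X][X]) : Prop :=
  ∀ i j : ℕ, ((H - (X ^ n - C (X ^ m))).coeff j).coeff i ≠ 0 → n * i + m * j < n * m

/-- The derivative with respect to the inner variable. -/
noncomputable def derivX {R : Type} [CommRing R] (H : R[X][X]) : R[X][X] :=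
  Bivariate.swap (derivative (Bivariate.swap H))

/-- The affine curve `H = 0` is smooth: `H` and its two partial derivatives generate the unit ideal. -/
def IsSmooth {R : Type} [CommRing R] (H : R[X][X]) : Prop :=
  Ideal.span {H, derivative H, derivX H} = ⊤

/-- The number `q_y` of the elements of the residue field of a closed point. -/
noncomputable def norm {R : Type} [CommRing R] (y : MaximalSpectrum R) : ℕ := Nat.card (R ⧸ y.asIdeal)

/-- The number of the points of the affine curve `G = 0` over the subfield of the algebraic closure of the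
residue field of `y` which consists of the elements with `a ^ n = a`.  For `n = q_y ^ (j + 1)` this is the
number of the points of the fibre over the extension of degree `j + 1` of the residue field. -/
noncomputable def points {R : Type} [CommRing R] (G : R[X][X]) (y : MaximalSpectrum R) (n : ℕ) : ℕ :=
  letI : Field (R ⧸ y.asIdeal) := Ideal.Quotient.field y.asIdeal
  Nat.card {P : AlgebraicClosure (R ⧸ y.asIdeal) × AlgebraicClosure (R ⧸ y.asIdeal) //
    P.1 ^ n = P.1 ∧ P.2 ^ n = P.2 ∧ evalEval P.1 P.2 (G.map (mapRingHom
      ((algebraMap (R ⧸ y.asIdeal) (AlgebraicClosure (R ⧸ y.asIdeal))).comp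
        (Ideal.Quotient.mk y.asIdeal)))) = 0}

/-- The factor `exp (∑ t_j T^j / j)`, where `t_j = q_y^j - #(affine points of the fibre over the extension
of degree j)` and the sum is over `j ≥ 1`.  For a smooth fibre this is `det (1 - T Frob | H¹)⁻¹`. -/
noncomputable def factor {R : Type} [CommRing R] (G : R[X][X]) (y : MaximalSpectrum R) (T : ℂ) : ℂ :=
  Complex.exp (∑' j : ℕ, (((norm y ^ (j + 1) : ℕ) : ℂ) - (points G y (norm y ^ (j + 1)) : ℂ)) /
    ((j + 1 : ℕ) : ℂ) * T ^ (j + 1))

theorem points_eq {R : Type} [CommRing R] (G : R[X][X]) (y : MaximalSpectrum R) (n : ℕ) :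
    points G y n = Pool.Agent.Run7.h954.CP.pts2 (Pool.Agent.TH958.An.Res y)
      (G.map (mapRingHom (Ideal.Quotient.mk y.asIdeal))) n := by
  unfold points Pool.Agent.Run7.h954.CP.pts2
  rw [Polynomial.map_map, mapRingHom_comp]

theorem factor_eq {R : Type} [CommRing R] (G : R[X][X]) (y : MaximalSpectrum R) (T : ℂ) :
    factor G y T = Pool.Agent.R410.EP.ZG (Pool.Agent.Run7.h954.CP.tr2 G) y T := by
  unfold factor Pool.Agent.R410.EP.ZG Pool.Agent.Run7.h954.CP.tr2
  congr 1
  refine tsum_congr fun j => ?_
  rw [points_eq, Complex.ofReal_sub, Complex.ofReal_natCast, Complex.ofReal_natCast]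
  rfl

/-- **The rank part of Tate's conjecture for the curves `y^n - x^m + ... = 0` over `M(w_0, ..., w_k)` with
a rational total space, for an arbitrary finitely generated field `M` of characteristic zero.** -/
theorem result {M : Type} [Field M] [CharZero M]
    (hM : ∃ S : Finset M, Subfield.closure (S : Set M) = ⊤) {d : ℕ} (hd : Algebra.trdeg ℚ M = d)
    {K : Type} [Field K] [CharZero K] [Algebra M K] {k : ℕ} {w : Fin (k + 1) → K}
    (hw : AlgebraicIndependent M w) (hK : IntermediateField.adjoin M (Set.range w) = ⊤)
    {n m : ℕ} (hn : 0 < n) (hm : 0 < m) (hcop : n.Coprime m) {H : K[X][X]} (hH : IsCab n m H)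
    (hs : IsSmooth H)
    -- the function field of the curve is purely transcendental over `M`
    {E : Type} [Field E] [Algebra M E] [Algebra K E] [IsScalarTower M K E] [Algebra (AdjoinRoot H) E]
    [IsScalarTower K (AdjoinRoot H) E] [IsFractionRing (AdjoinRoot H) E]
    {z : Fin (k + 2) → E} (hz : AlgebraicIndependent M z)
    (hE : IntermediateField.adjoin M (Set.range z) = ⊤) :
    Algebra.trdeg ℚ K = (d + k + 1 : ℕ) ∧
    ∃ (_ : IsDedekindDomain (AdjoinRoot H)) (ρ : ℕ),
      -- the rank is finite
      Module.rank ℤ (Additive (ClassGroup (AdjoinRoot H))) = (ρ : Cardinal) ∧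
      -- a model with smooth fibres exists
      (∃ (R : Subalgebra ℤ K) (G : R[X][X]), Algebra.FiniteType ℤ R ∧ IsFractionRing R K ∧
        G.map (mapRingHom (algebraMap R K)) = H ∧ IsSmooth G) ∧
      -- for every model
      ∀ (R : Type) [CommRing R] [IsDomain R] [Algebra.FiniteType ℤ R] [Algebra R K]
        [IsFractionRing R K] (G : R[X][X]), G.map (mapRingHom (algebraMap R K)) = H →
        (∃ N : R, N ≠ 0 ∧ ∀ y : MaximalSpectrum R, N ∉ y.asIdeal →
          IsSmooth (G.map (mapRingHom (Ideal.Quotient.mk y.asIdeal)))) ∧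
        ∀ N : R, N ≠ 0 → ∃ Φ : ℂ → ℂ,
          (∀ s : ℂ, ((d + k + 2 : ℕ) : ℝ) + 1 / 2 < s.re →
            HasProd (fun y : {y : MaximalSpectrum R // N ∉ y.asIdeal} =>
              factor G y.1 ((norm y.1 : ℂ) ^ (-s))) (Φ s)) ∧
          DifferentiableOn ℂ Φ {s : ℂ | ((d + k + 2 : ℕ) : ℝ) < s.re} ∧
          MeromorphicAt Φ ((d + k + 2 : ℕ) : ℂ) ∧
          -- the order of vanishing is the rank
          meromorphicOrderAt Φ ((d + k + 2 : ℕ) : ℂ) = ((ρ : ℤ) : WithTop ℤ) := by
  classical
  have hH' : Pool.Agent.Run7.h954.CP.IsCab n m H := hH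
  have hs' : Pool.Agent.Run7.h954.CP.IsSmooth H := hs
  have hded : IsDedekindDomain (AdjoinRoot H) :=
    Pool.Agent.Run7.h954.CP.dedekind_cab hn hm hcop hH' hs'
  obtain ⟨ρ, hρ, hasy⟩ := Pool.Agent.Run7.h954.CP.rank_asy hM hd hw hK hz hE hn hm hcop hH'
  have htr : Algebra.trdeg ℚ K = (d + (k + 1) : ℕ) := Pool.Agent.Run7.h954.CP.trdeg_rat hw hK hd
  refine ⟨htr, hded, ρ, hρ, ?_, ?_⟩
  · exact Pool.Agent.Run7.h954.CP.exists_smooth (Pool.Agent.Run7.h954.CP.fg_rat hM hK) hs'
  · intro R _ _ _ _ _ G hG
    refine ⟨?_, ?_⟩
    · obtain ⟨N, hN, h⟩ := Pool.Agent.Run7.h954.CP.exists_good (G := G) (K := K) (by rw [hG]; exact hs')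
      refine ⟨N, hN, fun y hy => ?_⟩
      letI : Field (R ⧸ y.asIdeal) := Ideal.Quotient.field y.asIdeal
      exact h (R ⧸ y.asIdeal) (Ideal.Quotient.mk y.asIdeal) fun h0 =>
        hy (Ideal.Quotient.eq_zero_iff_mem.1 h0)
    · intro N hN
      have hG' : Pool.Agent.Run7.h954.CP.IsCab n m G :=
        Pool.Agent.Run7.h954.CP.IsCab.of_map (algebraMap R K) (IsFractionRing.injective R K)
          (by rw [hG]; exact hH')
      obtain ⟨Φ, p1, p2, p3, p4⟩ := Pool.Agent.Run7.h954.CP.euler_cab (K := K) hn hm hcop
        (e := d + (k + 1)) htr.le hG' (hasy R G hG N hN)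
      have e1 : (((d + (k + 1) : ℕ) : ℂ) + 1) = ((d + k + 2 : ℕ) : ℂ) := by
        push_cast
        ring
      rw [e1] at p3 p4
      refine ⟨Φ, ?_, ?_, p3, p4⟩
      · intro s hs1
        have h1 := p1 s (by push_cast at hs1 ⊢; linarith)
        have h2 : (fun y : {y : MaximalSpectrum R // N ∉ y.asIdeal} =>
            factor G y.1 ((norm y.1 : ℂ) ^ (-s))) =
            fun y : {y : MaximalSpectrum R // N ∉ y.asIdeal} =>
              Pool.Agent.R410.EP.ZG (Pool.Agent.Run7.h954.CP.tr2 G) y.1
                ((Pool.Agent.TH958.An.qy y.1 : ℂ) ^ (-s)) := by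
          funext y
          rw [factor_eq]
          rfl
        rw [h2]
        exact h1
      · refine p2.mono ?_
        intro t ht
        rw [Set.mem_ofPred_eq] at ht ⊢
        push_cast at ht ⊢
        linarith

end Pool.Agent.Results.MP_9faec4_nt.RationalTotalSpace
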